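import Pool.Agent.H500.HC.Stm

set_option autoImplicit false

namespace Pool.Agent.H894.HC.Rou

open NumberField

theorem not_unit (E : Type) [Field E] [NumberField E] (N : ℕ) (hN : 2 ≤ N) :
    ¬ IsUnit ((N : ℕ) : 𝓞 E) := by
  intro h
  obtain ⟨w, hw⟩ := h.exists_right_inv
  have h1 : ((N : ℕ) : E) * (w : E) = 1 := by
    have := congrArg (fun x : 𝓞 E => (x : E)) hw
    simpa using this
  have hN0 : ((N : ℕ) : ℚ) ≠ 0 := by
    exact_mod_cast (by omega : N ≠ 0)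
  have hN0' : ((N : ℕ) : E) ≠ 0 := by
    exact_mod_cast (by omega : N ≠ 0)
  have h2 : (w : E) = algebraMap ℚ E ((N : ℚ)⁻¹) := by
    rw [map_inv₀, map_natCast]
    exact eq_inv_of_mul_eq_one_right h1
  have h3 : IsIntegral ℤ (algebraMap ℚ E ((N : ℚ)⁻¹)) := by
    rw [← h2]
    exact w.2
  have h4 : IsIntegral ℤ ((N : ℚ)⁻¹) :=
    (isIntegral_algebraMap_iff (algebraMap ℚ E).injective).mp h3
  obtain ⟨k, hk⟩ := IsIntegrallyClosed.isIntegral_iff.mp h4
  have h5 : (N : ℤ) * k = 1 := by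
    have : ((N : ℤ) * k : ℚ) = 1 := by
      have hk' : (k : ℚ) = (N : ℚ)⁻¹ := hk
      rw [hk']
      push_cast
      exact mul_inv_cancel₀ hN0
    exact_mod_cast this
  have h6 := Int.isUnit_iff.mp (IsUnit.of_mul_eq_one _ h5)
  omega

theorem main : Pool.Agent.H500.HC.S_Rou := by
  intro E _ _ N hN
  have hfin : Set.Finite {z : 𝓞 E | ∃ m : ℕ, 0 < m ∧ z ^ m = 1} := by
    have h1 : Set.Finite ((fun u : (𝓞 E)ˣ => (u : 𝓞 E)) '' (NumberField.Units.torsion E : Set (𝓞 E)ˣ)) :=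
      (show Set.Finite (NumberField.Units.torsion E : Set (𝓞 E)ˣ) from
        Set.finite_coe_iff.mp (inferInstanceAs (Finite (NumberField.Units.torsion E)))).image _
    refine h1.subset ?_
    rintro z ⟨m, hm, hz⟩
    have hu : IsUnit z := IsUnit.of_pow_eq_one hz hm.ne'
    refine ⟨hu.unit, ?_, hu.unit_spec⟩
    show hu.unit ∈ NumberField.Units.torsion E
    have h2 : hu.unit ^ m = 1 := by
      ext
      simp [hz]
    exact (CommGroup.mem_torsion _).mpr (isOfFinOrder_iff_pow_eq_one.mpr ⟨m, hm, h2⟩)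
  have hex : ∀ z : 𝓞 E, ∃ e : ℕ, z ≠ 1 → ¬ (((N : ℕ) : 𝓞 E) ^ e ∣ z - 1) := by
    intro z
    by_cases hz : z = 1
    · exact ⟨0, fun h => absurd hz h⟩
    · have hf : FiniteMultiplicity ((N : ℕ) : 𝓞 E) (z - 1) :=
        FiniteMultiplicity.of_not_isUnit (not_unit E N hN) (sub_ne_zero.mpr hz)
      obtain ⟨n, hn⟩ := hf
      exact ⟨n + 1, fun _ => hn⟩
  choose e he using hex
  refine ⟨(∑ z ∈ hfin.toFinset, e z) + 1, Nat.succ_pos _, ?_⟩
  intro z m hm hz hd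
  by_contra hne
  refine he z hne ?_
  have hmem : z ∈ hfin.toFinset := by
    rw [Set.Finite.mem_toFinset]
    exact ⟨m, hm, hz⟩
  have hle : e z ≤ (∑ z ∈ hfin.toFinset, e z) + 1 :=
    (Finset.single_le_sum (f := e) (fun i _ => Nat.zero_le _) hmem).trans (Nat.le_succ _)
  refine (pow_dvd_pow _ hle).trans ?_
  rw [← Nat.cast_pow]
  exact hd

end Pool.Agent.H894.HC.Rou
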